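import Pool.Agent.N874.PP.Lat

/-!
# Local square classes (part `S_CLS` of project PP)

Classes at a prime with finite residue field: `Ev` and `U0` are additive.
-/

set_option autoImplicit false
set_option linter.all false

open Polynomial IsDedekindDomain
open scoped Classical

namespace Pool.Agent.N539.PP

open Pool.Agent.N874.PP

section gen

variable {L : Type} [Field L] {O : Type} [CommRing O] [IsDedekindDomain O] [Algebra O L]
  [IsFractionRing O L] (𝔓 : HeightOneSpectrum O)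

theorem ev_iff {x : L} (hx : x ≠ 0) : Ev 𝔓 x ↔ Even (WithZero.log (𝔓.valuation L x)) := by
  have hvx : 𝔓.valuation L x ≠ 0 := (Valuation.ne_zero_iff _).mpr hx
  constructor
  · rintro ⟨y, hy⟩
    have hvy : 𝔓.valuation L y ≠ 0 := by
      intro h
      rw [h] at hy
      simp at hy
      exact hx hy
    rw [hy, pow_two, WithZero.log_mul hvy hvy]
    exact ⟨_, rfl⟩
  · rintro ⟨m, hm⟩
    obtain ⟨y, hy⟩ := 𝔓.valuation_surjective L (WithZero.exp m)
    refine ⟨y, ?_⟩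
    rw [hy, pow_two, ← WithZero.exp_add, ← hm, WithZero.exp_log hvx]

theorem ev_mul {x y : L} (hx : x ≠ 0) (hy : y ≠ 0) : Ev 𝔓 (x * y) ↔ (Ev 𝔓 x ↔ Ev 𝔓 y) := by
  have hvx : 𝔓.valuation L x ≠ 0 := (Valuation.ne_zero_iff _).mpr hx
  have hvy : 𝔓.valuation L y ≠ 0 := (Valuation.ne_zero_iff _).mpr hy
  rw [ev_iff 𝔓 hx, ev_iff 𝔓 hy, ev_iff 𝔓 (mul_ne_zero hx hy), map_mul, WithZero.log_mul hvx hvy,
    Int.even_add]

theorem sq1_val {x s : L} (hs : 𝔓.valuation L (x - s ^ 2) < 𝔓.valuation L x) :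
    𝔓.valuation L s ^ 2 = 𝔓.valuation L x := by
  have h : 𝔓.valuation L (x - (x - s ^ 2)) = 𝔓.valuation L x := by
    rw [sub_eq_add_neg]
    apply Valuation.map_add_eq_of_lt_left
    rwa [Valuation.map_neg]
  rw [← h, sub_sub_cancel, map_pow]

theorem Sq1.ev {x : L} (h : Sq1 𝔓 x) : Ev 𝔓 x := by
  obtain ⟨s, hs⟩ := h
  exact ⟨s, (sq1_val 𝔓 hs).symm⟩

theorem Sq1.mul {x y : L} (hx : Sq1 𝔓 x) (hy : Sq1 𝔓 y) : Sq1 𝔓 (x * y) := by
  obtain ⟨s, hs⟩ := hx
  obtain ⟨t, ht⟩ := hy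
  refine ⟨s * t, ?_⟩
  have hvx : 0 < 𝔓.valuation L x := lt_of_le_of_lt zero_le' hs
  have hvy : 0 < 𝔓.valuation L y := lt_of_le_of_lt zero_le' ht
  have e : x * y - (s * t) ^ 2 = x * (y - t ^ 2) + t ^ 2 * (x - s ^ 2) := by ring
  rw [e]
  refine lt_of_le_of_lt (Valuation.map_add _ _ _) (max_lt ?_ ?_)
  · rw [map_mul, map_mul]
    exact mul_lt_mul_of_pos_left ht hvx
  · rw [map_mul, map_mul, map_pow, sq1_val 𝔓 ht, mul_comm]
    exact mul_lt_mul_of_pos_right hs hvy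

theorem sq1_sq {x : L} (hx : x ≠ 0) : Sq1 𝔓 (x ^ 2) := by
  refine ⟨x, ?_⟩
  rw [sub_self, map_zero]
  exact lt_of_le_of_ne zero_le' (Ne.symm ((Valuation.ne_zero_iff _).mpr (pow_ne_zero 2 hx)))

theorem sq1_mul_sq {x y : L} (hy : y ≠ 0) : Sq1 𝔓 (x * y ^ 2) ↔ Sq1 𝔓 x := by
  constructor
  · intro h
    have := Sq1.mul 𝔓 h (sq1_sq 𝔓 (inv_ne_zero hy))
    have e : x * y ^ 2 * y⁻¹ ^ 2 = x := by field_simp
    rwa [e] at this
  · intro h
    exact Sq1.mul 𝔓 h (sq1_sq 𝔓 hy)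

/-- a unit is a square iff its residue class is a square -/
theorem sq1_unit {c : O} {u : L} (hu : 𝔓.valuation L u = 1)
    (hc : 𝔓.valuation L (algebraMap O L c - u) < 1) :
    Sq1 𝔓 u ↔ IsSquare (Ideal.Quotient.mk 𝔓.asIdeal c) := by
  constructor
  · rintro ⟨s, hs⟩
    have hs2 := sq1_val 𝔓 hs
    rw [hu] at hs hs2
    have hs1 : 𝔓.valuation L s ≤ 1 := by
      by_contra hcon
      push Not at hcon
      have : (1 : WithZero (Multiplicative ℤ)) < 𝔓.valuation L s ^ 2 :=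
        one_lt_pow₀ hcon (by norm_num)
      rw [hs2] at this
      exact lt_irrefl _ this
    obtain ⟨d, hd⟩ := 𝔓.exists_valuation_sub_lt_of_integer hs1 1
    rw [Units.val_one] at hd
    refine ⟨Ideal.Quotient.mk 𝔓.asIdeal d, ?_⟩
    rw [← map_mul, Ideal.Quotient.eq, ← HeightOneSpectrum.valuation_lt_one_iff_mem (K := L)]
    have hd1 : 𝔓.valuation L (algebraMap O L d) ≤ 1 := HeightOneSpectrum.valuation_le_one _ _
    have e : algebraMap O L (c - d * d) = (algebraMap O L c - u) + (u - s ^ 2) -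
        (algebraMap O L d - s) * (algebraMap O L d + s) := by
      rw [map_sub, map_mul]; ring
    show 𝔓.valuation L (algebraMap O L (c - d * d)) < 1
    rw [e]
    refine lt_of_le_of_lt (Valuation.map_sub _ _ _) (max_lt ?_ ?_)
    · exact lt_of_le_of_lt (Valuation.map_add _ _ _) (max_lt hc hs)
    · rw [map_mul]
      refine lt_of_le_of_lt (mul_le_of_le_one_right' ?_) hd
      exact le_trans (Valuation.map_add _ _ _) (max_le hd1 hs1)
  · rintro ⟨d', hd⟩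
    obtain ⟨d, rfl⟩ := Ideal.Quotient.mk_surjective d'
    rw [← map_mul, Ideal.Quotient.eq, ← HeightOneSpectrum.valuation_lt_one_iff_mem (K := L)] at hd
    refine ⟨algebraMap O L d, ?_⟩
    rw [hu]
    have e : u - algebraMap O L d ^ 2 = algebraMap O L (c - d * d) - (algebraMap O L c - u) := by
      rw [map_sub, map_mul]; ring
    rw [e]
    exact lt_of_le_of_lt (Valuation.map_sub _ _ _) (max_lt hd hc)

theorem isSquare_mul_iff_field {F : Type} [Field F] [Finite F] {a b : F} (ha : a ≠ 0)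
    (hb : b ≠ 0) : IsSquare (a * b) ↔ (IsSquare a ↔ IsSquare b) := by
  haveI := Fintype.ofFinite F
  by_cases h1 : IsSquare a
  · by_cases h2 : IsSquare b
    · simp [h1, h2, h1.mul h2]
    · simp only [h1, h2]
      simp only [iff_false, not_true_eq_false]
      intro h
      apply h2
      have := h.mul h1.inv
      rwa [mul_comm a b, mul_assoc, mul_inv_cancel₀ ha, mul_one] at this
  · by_cases h2 : IsSquare b
    · simp only [h1, h2]
      simp only [iff_true, iff_false]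
      intro h
      apply h1
      have := h.mul h2.inv
      rwa [mul_assoc, mul_inv_cancel₀ hb, mul_one] at this
    · simp only [h1, h2, iff_self, iff_true]
      have e1 := quadraticChar_neg_one_iff_not_isSquare.mpr h1
      have e2 := quadraticChar_neg_one_iff_not_isSquare.mpr h2
      have e3 : quadraticChar F (a * b) = 1 := by rw [map_mul, e1, e2]; norm_num
      exact (quadraticChar_one_iff_isSquare (mul_ne_zero ha hb)).mp e3

theorem sq1_mul_iff [Finite (O ⧸ 𝔓.asIdeal)] {x y : L} (hx : x ≠ 0) (hy : y ≠ 0)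
    (ex : Ev 𝔓 x) (ey : Ev 𝔓 y) : Sq1 𝔓 (x * y) ↔ (Sq1 𝔓 x ↔ Sq1 𝔓 y) := by
  haveI : 𝔓.asIdeal.IsMaximal := 𝔓.isMaximal
  letI := Ideal.Quotient.field 𝔓.asIdeal
  -- reduce to units
  have key : ∀ x : L, x ≠ 0 → Ev 𝔓 x → ∃ (c : O) (s u : L), s ≠ 0 ∧ x = u * s ^ 2 ∧
      𝔓.valuation L u = 1 ∧ 𝔓.valuation L (algebraMap O L c - u) < 1 ∧
      Ideal.Quotient.mk 𝔓.asIdeal c ≠ 0 := by
    intro x hx ex
    obtain ⟨s, hs⟩ := ex
    have hvx : 𝔓.valuation L x ≠ 0 := (Valuation.ne_zero_iff _).mpr hx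
    have hs0 : s ≠ 0 := by
      rintro rfl
      rw [map_zero] at hs
      exact hvx (by rw [hs]; simp)
    have hu : 𝔓.valuation L (x / s ^ 2) = 1 := by
      rw [map_div₀, map_pow, ← hs, div_self hvx]
    obtain ⟨c, hc⟩ := 𝔓.exists_valuation_sub_lt_of_integer hu.le 1
    rw [Units.val_one] at hc
    refine ⟨c, s, x / s ^ 2, hs0, ?_, hu, hc, ?_⟩
    · field_simp
    · intro h0
      rw [Ideal.Quotient.eq_zero_iff_mem,
        ← HeightOneSpectrum.valuation_lt_one_iff_mem (K := L)] at h0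
      have : 𝔓.valuation L (x / s ^ 2) < 1 := by
        have e : x / s ^ 2 = algebraMap O L c - (algebraMap O L c - x / s ^ 2) := by ring
        rw [e]
        exact lt_of_le_of_lt (Valuation.map_sub _ _ _) (max_lt h0 hc)
      rw [hu] at this
      exact lt_irrefl _ this
  obtain ⟨c, s, u, hs0, rfl, hu, hc, hc0⟩ := key x hx ex
  obtain ⟨d, t, w, ht0, rfl, hw, hd, hd0⟩ := key y hy ey
  have e : u * s ^ 2 * (w * t ^ 2) = (u * w) * (s * t) ^ 2 := by ring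
  rw [e, sq1_mul_sq 𝔓 (mul_ne_zero hs0 ht0), sq1_mul_sq 𝔓 hs0, sq1_mul_sq 𝔓 ht0]
  have huw : 𝔓.valuation L (u * w) = 1 := by rw [map_mul, hu, hw, one_mul]
  have hcd : 𝔓.valuation L (algebraMap O L (c * d) - u * w) < 1 := by
    have e : algebraMap O L (c * d) - u * w = algebraMap O L c * (algebraMap O L d - w) +
        (algebraMap O L c - u) * w := by rw [map_mul]; ring
    rw [e]
    refine lt_of_le_of_lt (Valuation.map_add _ _ _) (max_lt ?_ ?_)
    · rw [map_mul]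
      exact lt_of_le_of_lt (mul_le_of_le_one_left' (HeightOneSpectrum.valuation_le_one _ _)) hd
    · rw [map_mul, hw, mul_one]
      exact hc
  rw [sq1_unit 𝔓 huw hcd, sq1_unit 𝔓 hu hc, sq1_unit 𝔓 hw hd, map_mul]
  exact isSquare_mul_iff_field hc0 hd0

theorem u0_mul_iff [Finite (O ⧸ 𝔓.asIdeal)] {x y ϖ : L} (hx : x ≠ 0) (hy : y ≠ 0) (hϖ : ϖ ≠ 0)
    (eϖ : ¬ Ev 𝔓 ϖ) : U0 𝔓 ϖ (x * y) ↔ (U0 𝔓 ϖ x ↔ U0 𝔓 ϖ y) := by
  have hxy := ev_mul 𝔓 hx hy
  have hxϖ := ev_mul 𝔓 hx hϖ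
  have hyϖ := ev_mul 𝔓 hy hϖ
  have h1 : ∀ z : L, Ev 𝔓 z → (U0 𝔓 ϖ z ↔ Sq1 𝔓 z) := fun z hz => by
    simp only [U0, hz, not_true_eq_false, true_implies, false_implies, and_true]
  have h2 : ∀ z : L, ¬ Ev 𝔓 z → (U0 𝔓 ϖ z ↔ Sq1 𝔓 (z * ϖ)) := fun z hz => by
    simp only [U0, hz, not_false_eq_true, true_implies, false_implies, true_and]
  by_cases ex : Ev 𝔓 x
  · by_cases ey : Ev 𝔓 y
    · rw [h1 x ex, h1 y ey, h1 _ (hxy.mpr (iff_of_true ex ey)), sq1_mul_iff 𝔓 hx hy ex ey]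
    · have exy : ¬ Ev 𝔓 (x * y) := fun h => ey ((hxy.mp h).mp ex)
      have eyϖ : Ev 𝔓 (y * ϖ) := hyϖ.mpr (iff_of_false ey eϖ)
      rw [h1 x ex, h2 y ey, h2 _ exy, mul_assoc, sq1_mul_iff 𝔓 hx (mul_ne_zero hy hϖ) ex eyϖ]
  · by_cases ey : Ev 𝔓 y
    · have exy : ¬ Ev 𝔓 (x * y) := fun h => ex ((hxy.mp h).mpr ey)
      have exϖ : Ev 𝔓 (x * ϖ) := hxϖ.mpr (iff_of_false ex eϖ)
      rw [h2 x ex, h1 y ey, h2 _ exy, show x * y * ϖ = x * ϖ * y by ring,
        sq1_mul_iff 𝔓 (mul_ne_zero hx hϖ) hy exϖ ey]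
    · have exy : Ev 𝔓 (x * y) := hxy.mpr (iff_of_false ex ey)
      have exϖ : Ev 𝔓 (x * ϖ) := hxϖ.mpr (iff_of_false ex eϖ)
      have eyϖ : Ev 𝔓 (y * ϖ) := hyϖ.mpr (iff_of_false ey eϖ)
      rw [h2 x ex, h2 y ey, h1 _ exy, ← sq1_mul_sq 𝔓 hϖ, show x * y * ϖ ^ 2 = x * ϖ * (y * ϖ) by ring,
        sq1_mul_iff 𝔓 (mul_ne_zero hx hϖ) (mul_ne_zero hy hϖ) exϖ eyϖ]

end gen

/-- The residue field at a prime over `Q` is finite. -/
theorem finite_residue {k O : Type} [Field k] [Finite k] [CommRing O] [IsDedekindDomain O]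
    [Algebra k[X] O] [Module.Finite k[X] O] {Q : k[X]} {𝔓 : HeightOneSpectrum O}
    (hQ : Irreducible Q) (hO : Ov Q 𝔓) : Finite (O ⧸ 𝔓.asIdeal) := by
  haveI : Finite (k[X] ⧸ Ideal.span {Q}) := by
    haveI : Fintype k := Fintype.ofFinite k
    have : Finite (AdjoinRoot Q) := by
      haveI := Module.finite_of_finrank_pos (R := k) (M := AdjoinRoot Q) (by
        rw [(AdjoinRoot.powerBasis hQ.ne_zero).finrank, AdjoinRoot.powerBasis_dim]
        exact hQ.natDegree_pos)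
      exact Module.finite_of_finite k
    exact this
  -- `O / 𝔓` is a finite module over `k[X] / Q`
  letI : Algebra (k[X] ⧸ Ideal.span {Q}) (O ⧸ 𝔓.asIdeal) :=
    (Ideal.Quotient.lift (Ideal.span {Q})
      ((Ideal.Quotient.mk 𝔓.asIdeal).comp (algebraMap k[X] O)) (by
        intro a ha
        rw [Ideal.mem_span_singleton'] at ha
        obtain ⟨c, rfl⟩ := ha
        rw [RingHom.comp_apply, Ideal.Quotient.eq_zero_iff_mem, map_mul]
        exact Ideal.mul_mem_left _ _ hO)).toAlgebra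
  haveI : IsScalarTower k[X] (k[X] ⧸ Ideal.span {Q}) (O ⧸ 𝔓.asIdeal) := by
    refine ⟨fun a b c => ?_⟩
    obtain ⟨b, rfl⟩ := Ideal.Quotient.mk_surjective b
    obtain ⟨c, rfl⟩ := Ideal.Quotient.mk_surjective c
    show Ideal.Quotient.mk 𝔓.asIdeal (algebraMap k[X] O (a * b)) * Ideal.Quotient.mk 𝔓.asIdeal c =
      Ideal.Quotient.mk 𝔓.asIdeal (a • (algebraMap k[X] O b * c))
    rw [Algebra.smul_def, ← mul_assoc, (Ideal.Quotient.mk 𝔓.asIdeal).map_mul _ c,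
      (algebraMap k[X] O).map_mul a b]
  haveI : Module.Finite k[X] (O ⧸ 𝔓.asIdeal) :=
    Module.Finite.of_surjective (Ideal.Quotient.mkₐ k[X] 𝔓.asIdeal).toLinearMap
      Ideal.Quotient.mk_surjective
  haveI : Module.Finite (k[X] ⧸ Ideal.span {Q}) (O ⧸ 𝔓.asIdeal) :=
    Module.Finite.of_restrictScalars_finite k[X] _ _
  exact Module.finite_of_finite (k[X] ⧸ Ideal.span {Q})

theorem cls : S_CLS := by
  intro k L O _ _ _ _ _ _ _ _ _ _ _ _ Q 𝔓 ϖ h2 hQ hO hϖ eϖ x y hx hy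
  haveI := finite_residue hQ hO
  exact ⟨ev_mul 𝔓 hx hy, u0_mul_iff 𝔓 hx hy hϖ eϖ⟩

end Pool.Agent.N539.PP
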